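import Pool.Agent.H45.SF.Stmt

/-!
# MP_ceca85_lc: the iterated `C(aa)` sequence. Statement level definitions

`V` is the type of all sets (of the lowest universe), a class of sets is a predicate `V → Prop`.
All notions are relative to a transitive class `K`.
-/

set_option linter.unusedVariables false

open Ordinal Cardinal Order Set
open scoped ZFSet

namespace CA

open SF

/-- Formulas of stationary logic `L(aa)` in the language with `∈`. There are two sorts of
variables: variables for elements and variables for countable subsets; both are de Bruijn indices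
(`ex` binds the element variable `0`, `aa` binds the set variable `0`). -/
inductive AFml : Type
  /-- `x i ∈ x j` -/
  | mem (i j : ℕ) : AFml
  /-- `x i = x j` -/
  | eq (i j : ℕ) : AFml
  /-- `x i ∈ s j`, where `s j` is a variable for countable sets -/
  | ins (i j : ℕ) : AFml
  /-- negation -/
  | neg (φ : AFml) : AFml
  /-- conjunction -/
  | and (φ ψ : AFml) : AFml
  /-- there is an element `x` -/
  | ex (φ : AFml) : AFml
  /-- for almost all countable sets `s` -/
  | aa (φ : AFml) : AFml

/-- the code of a finite sequence of sets -/
noncomputable def cl : List V → V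
  | [] => ∅
  | a :: l => ZFSet.pair a (cl l)

/-- `z` is a countable subset of `A`, in the sense of the class `K` -/
def CSub (K : V → Prop) (A z : V) : Prop := K z ∧ z ⊆ A ∧ Ctbl K z

/-- `F` is a sequence (in `K`) of finitary operations on `A`: for every `n ∈ ω` and every finite
sequence `l` of elements of `A` the value `F (n, l)` is an element of `A`. -/
def Ops (K : V → Prop) (A F : V) : Prop :=
  K F ∧ ∀ n ∈ (ω : Ordinal.{0}).toZFSet, ∀ l : List V, (∀ x ∈ l, x ∈ A) →
    app F (ZFSet.pair n (cl l)) ∈ A

/-- `z` is closed under the operations `F (n, ·)`, `n ∈ ω` -/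
def Clo (F z : V) : Prop :=
  ∀ n ∈ (ω : Ordinal.{0}).toZFSet, ∀ l : List V, (∀ x ∈ l, x ∈ z) → app F (ZFSet.pair n (cl l)) ∈ z

/-- The class `S` of countable subsets of `A` contains a club, in the sense of `K`: it contains all
countable subsets which are closed under countably many finitary operations. -/
def HasClub (K : V → Prop) (A : V) (S : V → Prop) : Prop :=
  ∃ F, Ops K A F ∧ ∀ z, CSub K A z → Clo F z → S z

/-- Satisfaction of a formula of stationary logic in the structure `(A, ∈)`, in the sense of the
class `K`; `v` is the assignment of the element variables, `s` the assignment of the variables for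
countable sets. -/
def SatA (K : V → Prop) (A : V) : AFml → (ℕ → V) → (ℕ → V) → Prop
  | .mem i j, v, _ => v i ∈ v j
  | .eq i j, v, _ => v i = v j
  | .ins i j, v, s => v i ∈ s j
  | .neg φ, v, s => ¬ SatA K A φ v s
  | .and φ ψ, v, s => SatA K A φ v s ∧ SatA K A ψ v s
  | .ex φ, v, s => ∃ x ∈ A, SatA K A φ (cons x v) s
  | .aa φ, v, s => HasClub K A fun z => SatA K A φ v (cons z s)

/-- The set of the subsets of `A` which are definable with parameters from `A` over the structure
`(A, ∈)` by formulas of stationary logic, in the sense of `K`. The parameters are the terms of a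
list; element variables beyond the list have the value `z`, free set variables the value `∅`. -/
noncomputable def DefA (K : V → Prop) (A : V) : V :=
  (ZFSet.powerset A).sep fun y => ∃ (φ : AFml) (l : List V), (∀ p ∈ l, p ∈ A) ∧
    y = A.sep fun z => SatA K A φ (cons z fun i => l.getD i z) (fun _ => ∅)

/-- The levels `L'_α` of `C(aa)`, in the sense of `K`: `L'_0 = ∅`, `L'_(α+1)` is the set of the
definable subsets of `L'_α`, and unions are taken at limits (see `La_zero`, `La_succ` and
`La_limit`). -/
noncomputable def La (K : V → Prop) (α : Ordinal.{0}) : V :=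
  ⋃ β : Set.Iio α, DefA K (La K β.1)
termination_by α
decreasing_by exact β.2

/-- the class `C(aa)` in the sense of `K` -/
def Caa (K : V → Prop) (x : V) : Prop := ∃ α : Ordinal.{0}, K α.toZFSet ∧ x ∈ La K α

/-- The iterated `C(aa)` sequence of `K`: the first class is `K`, the class with the index `α + 1` is
the `C(aa)` of the class with the index `α`, at limits the intersection is taken. -/
noncomputable def It (K : V → Prop) (α : Ordinal.{0}) : V → Prop :=
  Ordinal.limitRecOn α K (fun _ N => Caa N) (fun β _ N x => ∀ γ (h : γ < β), N γ h x)

/-- There is a countable transitive model `W` of ZFC whose iterated `C(aa)` sequence is strictly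
decreasing at every ordinal stage. -/
def Goal : Prop :=
  ∃ W : V, (W : Set V).Countable ∧ ZFC (· ∈ W) ∧ ∀ α : Ordinal.{0}, α.toZFSet ∈ W →
    (∀ x, It (· ∈ W) (succ α) x → It (· ∈ W) α x) ∧
    ∃ x, It (· ∈ W) α x ∧ ¬ It (· ∈ W) (succ α) x

end CA
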